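import Mathlib
import Pool.Agent.V11209.BurauDefs
import Pool.Agent.V11209.BurauMain

set_option autoImplicit false

/-!
There is an order-preserving braid (on three strands) all of whose Burau eigenvalues among the
real Puiseux series are negative.  The definitions are in `Pool.Agent.V11209.BurauDefs`.
-/

namespace Pool.Agent.Results.MP_6f07cb_gt.NoPositiveEigenvalue

open LaurentPolynomial
open Pool.Agent.V11209.Bur

theorem result : ∃ m : ℕ, 1 ≤ m ∧ ∃ β : Braid m, OrderPreserving β ∧
    Nonempty (Module.Basis (Fin m) ℤ[T;T⁻¹] (H1 m)) ∧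
    ∀ (b : Module.Basis (Fin m) ℤ[T;T⁻¹] (H1 m)) (μ : HahnSeries ℚ ℝ), IsPuiseux μ →
      IsEigenvalue (burauMatrix b β) μ → μ.leadingCoeff < 0 :=
  final

end Pool.Agent.Results.MP_6f07cb_gt.NoPositiveEigenvalue
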